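import Pool.Agent.L5helper16.LG.Defs

/-!
# Project LG, job A5, part b: the estimates
-/

set_option autoImplicit false

namespace Pool.Agent.L5helper55.LG

open Finset Filter Topology

theorem ev_log : Tendsto (fun x : ℕ => Real.log x) atTop atTop :=
  Real.tendsto_log_atTop.comp tendsto_natCast_atTop_atTop

theorem t4 : Tendsto (fun x : ℕ => 4 * x) atTop atTop :=
  tendsto_atTop_mono (fun x => by show x ≤ 4 * x; omega) tendsto_id

theorem log4_le {x : ℕ} (h : 4 ≤ x) : Real.log (4 * (x : ℝ)) ≤ 2 * Real.log x := by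
  have hx : (4 : ℝ) ≤ x := by exact_mod_cast h
  rw [Real.log_mul (by norm_num) (by positivity)]
  have : Real.log 4 ≤ Real.log x := Real.log_le_log (by norm_num) hx
  linarith

theorem ev_small {w : ℕ → ℝ} (hw0 : Tendsto (fun n : ℕ => Real.log (w n) / Real.log n) atTop (𝓝 0)) {ε : ℝ}
    (hε : 0 < ε) : ∀ᶠ n : ℕ in atTop, Real.log (w n) ≤ ε * Real.log n := by
  filter_upwards [hw0.eventually (gt_mem_nhds hε), ev_log.eventually_gt_atTop 0] with n h1 h2
  exact ((div_lt_iff₀ h2).1 h1).le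

theorem ev_small4 {w : ℕ → ℝ} (hw0 : Tendsto (fun n : ℕ => Real.log (w n) / Real.log n) atTop (𝓝 0)) {ε : ℝ}
    (hε : 0 < ε) : ∀ᶠ x : ℕ in atTop, Real.log (w (4 * x)) ≤ ε * Real.log x := by
  filter_upwards [t4.eventually (ev_small hw0 (half_pos hε)), eventually_ge_atTop 4] with x h1 h2
  have h3 := log4_le h2
  push_cast at h1
  nlinarith

/-- the logarithm of the integer part -/
theorem floor_log {η : ℝ} (hη : 0 < η) : ∃ T : ℝ, 2 ≤ T ∧ ∀ t : ℝ, T ≤ t → Real.log t ≤ (1 + η) * Real.log ⌊t⌋₊ := by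
  refine ⟨Real.exp ((1 + η) * Real.log 2 / η) + 2, by linarith [Real.exp_pos ((1 + η) * Real.log 2 / η)], ?_⟩
  intro t ht
  have h2 : 2 ≤ t := by linarith [Real.exp_pos ((1 + η) * Real.log 2 / η)]
  have h3 : t / 2 ≤ ⌊t⌋₊ := by linarith [Nat.lt_floor_add_one t]
  have h4 : Real.log (t / 2) ≤ Real.log ⌊t⌋₊ := Real.log_le_log (by linarith) h3
  rw [Real.log_div (by linarith) (by norm_num)] at h4
  have h5 : (1 + η) * Real.log 2 / η ≤ Real.log t := by
    rw [Real.le_log_iff_exp_le (by linarith)]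
    linarith
  rw [div_le_iff₀ hη] at h5
  nlinarith

theorem theta_large : ∀ᶠ z : ℕ in atTop, (z : ℝ) / 2 ≤ Real.log (primorial z) := by
  have h1 := (isLittleO_log_rpow_atTop (r := 1 / 2) (by norm_num)).bound (c := 1 / 100) (by norm_num)
  have h2 := tendsto_natCast_atTop_atTop (R := ℝ) |>.eventually h1
  filter_upwards [h2, eventually_ge_atTop 2] with z h3 h4
  have hz : (2 : ℝ) ≤ z := by exact_mod_cast h4
  have hlog : 0 ≤ Real.log z := Real.log_nonneg (by linarith)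
  rw [Real.norm_of_nonneg hlog, Real.norm_of_nonneg (by positivity), ← Real.sqrt_eq_rpow] at h3
  have h5 := Chebyshev.theta_ge z
  rw [Chebyshev.theta_eq_log_primorial, Nat.floor_natCast] at h5
  have h6 : Real.log ((z : ℝ) + 1) ≤ 2 * Real.log z := by
    have : Real.log ((z : ℝ) + 1) ≤ Real.log ((z : ℝ) ^ 2) := Real.log_le_log (by positivity) (by nlinarith)
    rwa [Real.log_pow] at this
  have h7 : √(z : ℝ) * √z = z := Real.mul_self_sqrt (by positivity)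
  have h8 : √(z : ℝ) ≤ z := by
    have : 1 ≤ √(z : ℝ) := Real.one_le_sqrt.2 (by linarith)
    nlinarith
  have h9 : 0 ≤ √(z : ℝ) := Real.sqrt_nonneg _
  have h10 : √(z : ℝ) * Real.log z ≤ 1 / 100 * z := by
    calc √(z : ℝ) * Real.log z ≤ √(z : ℝ) * (1 / 100 * √z) := mul_le_mul_of_nonneg_left h3 h9
      _ = 1 / 100 * (√(z : ℝ) * √z) := by ring
      _ = _ := by rw [h7]
  have h11 := Real.log_two_gt_d9
  nlinarith

theorem prim_large (C : ℝ) : ∀ᶠ z : ℕ in atTop, C * ((z : ℝ) + 1) ^ 2 ≤ (primorial z : ℝ) := by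
  filter_upwards [theta_large, eventually_ge_atTop 2, eventually_ge_atTop ⌈864 * |C|⌉₊] with z h1 h2 h3
  have hz : (2 : ℝ) ≤ z := by exact_mod_cast h2
  have hz3 : 864 * |C| ≤ z := (Nat.le_ceil _).trans (by exact_mod_cast h3)
  have hp : (0 : ℝ) < primorial z := by exact_mod_cast primorial_pos z
  have h4 : Real.exp ((z : ℝ) / 2) ≤ primorial z := by rwa [← Real.le_log_iff_exp_le hp]
  have h5 : (z : ℝ) / 6 ≤ Real.exp ((z : ℝ) / 6) := by linarith [Real.add_one_le_exp ((z : ℝ) / 6)]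
  have h6 : Real.exp ((z : ℝ) / 2) = Real.exp ((z : ℝ) / 6) ^ 3 := by
    rw [← Real.exp_nat_mul]; congr 1; push_cast; ring
  have h7 : ((z : ℝ) / 6) ^ 3 ≤ Real.exp ((z : ℝ) / 6) ^ 3 := pow_le_pow_left₀ (by positivity) h5 3
  have h8 : C * ((z : ℝ) + 1) ^ 2 ≤ |C| * (2 * z) ^ 2 := by
    have h9 : C * ((z : ℝ) + 1) ^ 2 ≤ |C| * ((z : ℝ) + 1) ^ 2 :=
      mul_le_mul_of_nonneg_right (le_abs_self C) (by positivity)
    refine h9.trans (mul_le_mul_of_nonneg_left ?_ (abs_nonneg C))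
    exact pow_le_pow_left₀ (by positivity) (by linarith) 2
  have h9 : |C| * (2 * z) ^ 2 ≤ ((z : ℝ) / 6) ^ 3 := by
    have : 864 * |C| * (z : ℝ) ^ 2 ≤ z * (z : ℝ) ^ 2 := mul_le_mul_of_nonneg_right hz3 (by positivity)
    nlinarith
  rw [h6] at h4
  linarith

/-- `z = ⌊ρ log x⌋` tends to infinity -/
theorem z_tendsto {ρ : ℝ} (hρ : 0 < ρ) : Tendsto (fun x : ℕ => ⌊ρ * Real.log x⌋₊) atTop atTop :=
  tendsto_nat_floor_atTop.comp (ev_log.const_mul_atTop hρ)

/-- the length is at most the product of the small primes -/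
theorem h_le {c ρ : ℝ} (hc : 0 < c) (hρ : 0 < ρ) :
    ∀ᶠ x : ℕ in atTop, ⌊c * Real.log (4 * x) ^ 2⌋₊ ≤ primorial ⌊ρ * Real.log x⌋₊ := by
  filter_upwards [(z_tendsto hρ).eventually (prim_large (4 * c / ρ ^ 2)), eventually_ge_atTop 4] with x h1 h2
  have hx : (4 : ℝ) ≤ x := by exact_mod_cast h2
  have h3 := log4_le h2
  have h4 : 0 ≤ Real.log (4 * (x : ℝ)) := Real.log_nonneg (by linarith)
  have h5 : ρ * Real.log x ≤ (⌊ρ * Real.log x⌋₊ : ℝ) + 1 := (Nat.lt_floor_add_one _).le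
  have h6 : 0 ≤ Real.log (x : ℝ) := Real.log_nonneg (by linarith)
  refine Nat.floor_le_of_le (le_trans ?_ h1)
  have h7 : Real.log (4 * (x : ℝ)) ^ 2 ≤ (2 * Real.log x) ^ 2 := pow_le_pow_left₀ h4 h3 2
  have h8 : (ρ * Real.log x) ^ 2 ≤ ((⌊ρ * Real.log x⌋₊ : ℝ) + 1) ^ 2 := pow_le_pow_left₀ (by positivity) h5 2
  calc c * Real.log (4 * (x : ℝ)) ^ 2 ≤ c * (2 * Real.log x) ^ 2 := mul_le_mul_of_nonneg_left h7 hc.le
    _ = 4 * c / ρ ^ 2 * (ρ * Real.log x) ^ 2 := by field_simp; ring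
    _ ≤ 4 * c / ρ ^ 2 * ((⌊ρ * Real.log x⌋₊ : ℝ) + 1) ^ 2 := mul_le_mul_of_nonneg_left h8 (by positivity)

theorem xh_le {c : ℝ} (hc : 0 < c) : ∀ᶠ x : ℕ in atTop, 2 * x + ⌊c * Real.log (4 * x) ^ 2⌋₊ ≤ 4 * x := by
  have h1 : ∀ᶠ y : ℝ in atTop, c * (2 * Real.log y) ^ 2 ≤ 2 * y := by
    have h2 := (Real.isLittleO_pow_log_id_atTop (n := 2)).bound (c := (2 * c)⁻¹) (by positivity)
    filter_upwards [h2, eventually_ge_atTop 1] with y h3 h4
    rw [Real.norm_of_nonneg (by positivity), id, Real.norm_of_nonneg (by linarith)] at h3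
    calc c * (2 * Real.log y) ^ 2 = 4 * c * Real.log y ^ 2 := by ring
      _ ≤ 4 * c * ((2 * c)⁻¹ * y) := mul_le_mul_of_nonneg_left h3 (by positivity)
      _ = 2 * y := by field_simp; ring
  filter_upwards [tendsto_natCast_atTop_atTop (R := ℝ) |>.eventually h1, eventually_ge_atTop 4] with x h2 h3
  have hx : (4 : ℝ) ≤ x := by exact_mod_cast h3
  have h4 : 0 ≤ Real.log (4 * (x : ℝ)) := Real.log_nonneg (by linarith)
  have h5 : Real.log (4 * (x : ℝ)) ^ 2 ≤ (2 * Real.log x) ^ 2 := pow_le_pow_left₀ h4 (log4_le h3) 2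
  have h6 : ⌊c * Real.log (4 * x) ^ 2⌋₊ ≤ 2 * x := by
    refine Nat.floor_le_of_le ?_
    push_cast
    exact (mul_le_mul_of_nonneg_left h5 hc.le).trans h2
  omega

/-- the number of the multiples of the product of the small primes -/
theorem K0_ge {δ : ℝ} (hδ : 0 < δ) (hδ1 : δ ≤ 1) :
    ∀ᶠ x : ℕ in atTop, (x : ℝ) ^ (1 - δ / 2) ≤ 2 * (x / primorial ⌊δ / 4 * Real.log x⌋₊ : ℕ) := by
  have h1 : Tendsto (fun x : ℕ => (x : ℝ) ^ (1 - δ / 2)) atTop atTop :=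
    (tendsto_rpow_atTop (by linarith)).comp tendsto_natCast_atTop_atTop
  filter_upwards [h1.eventually_ge_atTop 2, eventually_ge_atTop 1] with x h2 h3
  have hx : (1 : ℝ) ≤ x := by exact_mod_cast h3
  have hx0 : (0 : ℝ) < x := by linarith
  have hL : 0 ≤ Real.log x := Real.log_nonneg hx
  set z := ⌊δ / 4 * Real.log x⌋₊ with hz
  set P := primorial z with hP
  have hPpos : 0 < P := primorial_pos z
  have h4 : (P : ℝ) ≤ (x : ℝ) ^ (δ / 2) := by
    have h5 : (P : ℝ) ≤ 4 ^ z := by exact_mod_cast primorial_le_four_pow z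
    have h6 : (4 : ℝ) ^ z = Real.exp (z * Real.log 4) := by
      rw [Real.exp_nat_mul, Real.exp_log (by norm_num)]
    have h7 : Real.log 4 ≤ 2 := by
      have : Real.log 4 = 2 * Real.log 2 := by
        rw [show (4 : ℝ) = 2 ^ 2 by norm_num, Real.log_pow]; norm_num
      linarith [Real.log_two_lt_d9]
    have h8 : (z : ℝ) ≤ δ / 4 * Real.log x := Nat.floor_le (by positivity)
    rw [Real.rpow_def_of_pos hx0]
    refine h5.trans ?_
    rw [h6]
    apply Real.exp_le_exp.2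
    have h9 : 0 ≤ Real.log (4 : ℝ) := Real.log_nonneg (by norm_num)
    calc (z : ℝ) * Real.log 4 ≤ z * 2 := mul_le_mul_of_nonneg_left h7 (by positivity)
      _ ≤ δ / 4 * Real.log x * 2 := by linarith
      _ = Real.log x * (δ / 2) := by ring
  have h5 : (x : ℝ) < P * ((x / P : ℕ) + 1) := by exact_mod_cast Nat.lt_mul_div_succ x hPpos
  have h6 : (x : ℝ) = (x : ℝ) ^ (δ / 2) * (x : ℝ) ^ (1 - δ / 2) := by
    rw [← Real.rpow_add hx0]
    norm_num
  have h7 : (x : ℝ) < (x : ℝ) ^ (δ / 2) * ((x / P : ℕ) + 1) :=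
    h5.trans_le (mul_le_mul_of_nonneg_right h4 (by positivity))
  have h8 : (x : ℝ) ^ (δ / 2) * (x : ℝ) ^ (1 - δ / 2) < (x : ℝ) ^ (δ / 2) * ((x / P : ℕ) + 1) := by
    rw [← h6]; exact h7
  have h9 := lt_of_mul_lt_mul_left h8 (by positivity)
  linarith

theorem pow_ge {δ η : ℝ} (hδ : 0 < δ) (hη : 0 < η) :
    ∀ᶠ x : ℕ in atTop, (x : ℝ) ^ (1 - δ) ≤ η / 4 * (x : ℝ) ^ (1 - δ / 2) := by
  have h1 : Tendsto (fun x : ℕ => (x : ℝ) ^ (δ / 2)) atTop atTop :=
    (tendsto_rpow_atTop (by positivity)).comp tendsto_natCast_atTop_atTop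
  filter_upwards [h1.eventually_ge_atTop (4 / η), eventually_ge_atTop 1] with x h2 h3
  have hx0 : (0 : ℝ) < x := by exact_mod_cast h3
  have h4 : (x : ℝ) ^ (1 - δ / 2) = (x : ℝ) ^ (1 - δ) * (x : ℝ) ^ (δ / 2) := by
    rw [← Real.rpow_add hx0]; congr 1; ring
  rw [h4]
  have h5 : 0 < (x : ℝ) ^ (1 - δ) := by positivity
  calc (x : ℝ) ^ (1 - δ) = η / 4 * ((x : ℝ) ^ (1 - δ) * (4 / η)) := by field_simp
    _ ≤ _ := by
      apply mul_le_mul_of_nonneg_left _ (by positivity)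
      exact mul_le_mul_of_nonneg_left h2 h5.le

end Pool.Agent.L5helper55.LG
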