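import Pool.Agent.L5helper16.LG.Defs

/-!
# Project LG, job A5, part a: the counting
-/

set_option autoImplicit false

namespace Pool.Agent.L5helper55.LG

open Finset Filter Topology
open Pool.Agent.L5helper16.LG

theorem avg (Ks : Finset ℕ) (m : ℕ → ℝ) (hm : ∀ k ∈ Ks, 0 ≤ m k) (B η : ℝ) (hB : 0 < B) (hη : 0 < η) (hη1 : η ≤ 1)
    (hs : ∑ k ∈ Ks, m k ≤ (1 + η) * B * #Ks) :
    η / 2 * #Ks ≤ (#(Ks.filter fun k => m k ≤ (1 + η) ^ 2 * B) : ℝ) := by
  classical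
  have hcard := Finset.card_filter_add_card_filter_not (s := Ks) (fun k => m k ≤ (1 + η) ^ 2 * B)
  set G := Ks.filter fun k => m k ≤ (1 + η) ^ 2 * B with hG
  set Bd := Ks.filter fun k => ¬ m k ≤ (1 + η) ^ 2 * B with hBd
  have h1 : (1 + η) ^ 2 * B * #Bd ≤ ∑ k ∈ Ks, m k := by
    calc (1 + η) ^ 2 * B * #Bd = ∑ k ∈ Bd, (1 + η) ^ 2 * B := by rw [sum_const, nsmul_eq_mul]; ring
      _ ≤ ∑ k ∈ Bd, m k := sum_le_sum fun k hk => (not_le.1 (mem_filter.1 hk).2).le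
      _ ≤ ∑ k ∈ Ks, m k := sum_le_sum_of_subset_of_nonneg (filter_subset _ _) fun k hk _ => hm k hk
  have h2 : (1 + η) * #Bd ≤ #Ks := by
    have : ((1 + η) * B) * ((1 + η) * #Bd) ≤ ((1 + η) * B) * #Ks := by
      calc ((1 + η) * B) * ((1 + η) * #Bd) = (1 + η) ^ 2 * B * #Bd := by ring
        _ ≤ _ := h1.trans hs
    exact le_of_mul_le_mul_left this (by positivity)
  have h3 : (#G : ℝ) + #Bd = #Ks := by exact_mod_cast hcard
  have h4 : (0 : ℝ) ≤ #Ks := by positivity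
  have h5 : (1 + η) * #Bd ≤ (1 + η) * ((1 - η / 2) * #Ks) := by
    have : (#Ks : ℝ) ≤ (1 + η) * ((1 - η / 2) * #Ks) := by
      have h6 : 0 ≤ (η / 2 * (1 - η)) * #Ks := mul_nonneg (mul_nonneg (by linarith) (by linarith)) h4
      nlinarith
    exact h2.trans this
  have h6 := le_of_mul_le_mul_left h5 (by positivity)
  linarith

theorem exists_res (P p j : ℕ) (hp : p.Prime) (hP : ¬ p ∣ P) : ∃ r : ℕ, p ∣ r * P + j := by
  have := Fact.mk hp
  have hP0 : (P : ZMod p) ≠ 0 := by rwa [Ne, ZMod.natCast_eq_zero_iff]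
  refine ⟨(-(j : ZMod p) * (P : ZMod p)⁻¹).val, ?_⟩
  rw [← ZMod.natCast_eq_zero_iff]
  push_cast
  rw [ZMod.natCast_zmod_val]
  field_simp
  ring

open Classical in
theorem count (P z y h a K : ℕ) (W : ℝ) (hP : ∀ p : ℕ, p.Prime → (p ∣ P ↔ p ≤ z)) (hzW : (z : ℝ) ≤ W)
    (hy : y = ⌊W⌋₊) :
    ∃ c : ℕ → ℕ → ℕ,
      ∑ k ∈ Ico a (a + K),
        (#((Ioc (k * P) (k * P + h)).filter fun n => ∀ p : ℕ, p.Prime → (p : ℝ) ≤ W → ¬ p ∣ n) : ℝ) ≤
      ∑ j ∈ (Icc 1 h).filter (fun j => ∀ p : ℕ, p.Prime → p ≤ z → ¬ p ∣ j),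
        (#((Ico a (a + K)).filter fun k => ∀ p ∈ prI z y, ¬ k ≡ c j p [MOD p]) : ℝ) := by
  have hex : ∀ j p : ℕ, ∃ r : ℕ, p.Prime → ¬ p ∣ P → p ∣ r * P + j := by
    intro j p
    by_cases h1 : p.Prime ∧ ¬ p ∣ P
    · obtain ⟨r, hr⟩ := exists_res P p j h1.1 h1.2
      exact ⟨r, fun _ _ => hr⟩
    · exact ⟨0, fun h2 h3 => absurd ⟨h2, h3⟩ h1⟩
  choose c hc using hex
  refine ⟨c, ?_⟩
  have hW0 : 0 ≤ W := (Nat.cast_nonneg z).trans hzW
  have h1 : ∀ k ∈ Ico a (a + K),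
      (#((Ioc (k * P) (k * P + h)).filter fun n => ∀ p : ℕ, p.Prime → (p : ℝ) ≤ W → ¬ p ∣ n) : ℝ) ≤
      (#(((Icc 1 h).filter (fun j => ∀ p : ℕ, p.Prime → p ≤ z → ¬ p ∣ j)).filter
        fun j => ∀ p ∈ prI z y, ¬ k ≡ c j p [MOD p]) : ℝ) := by
    intro k _
    rw [Nat.cast_le]
    refine card_le_card_of_injOn (fun n => n - k * P) ?_ ?_
    · intro n hn
      rw [mem_coe, mem_filter, mem_Ioc] at hn
      obtain ⟨⟨h2, h3⟩, h4⟩ := hn
      have hnj : n = k * P + (n - k * P) := by omega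
      show n - k * P ∈ (((Icc 1 h).filter (fun j => ∀ p : ℕ, p.Prime → p ≤ z → ¬ p ∣ j)).filter
        fun j => ∀ p ∈ prI z y, ¬ k ≡ c j p [MOD p])
      rw [mem_filter, mem_filter, mem_Icc]
      refine ⟨⟨by omega, ?_⟩, ?_⟩
      · intro p hp hpz hpj
        have hpW : (p : ℝ) ≤ W := (Nat.cast_le.2 hpz).trans hzW
        apply h4 p hp hpW
        rw [hnj]
        exact dvd_add (((hP p hp).2 hpz).mul_left _) hpj
      · intro p hp hk
        rw [prI, mem_filter, mem_Ioc] at hp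
        obtain ⟨⟨h5, h6⟩, h7⟩ := hp
        have hpW : (p : ℝ) ≤ W := by
          rw [hy] at h6
          exact (Nat.cast_le.2 h6).trans (Nat.floor_le hW0)
        have hpP : ¬ p ∣ P := fun hd => by
          have := (hP p h7).1 hd
          omega
        apply h4 p h7 hpW
        rw [hnj]
        have h8 := hc (n - k * P) p h7 hpP
        have h9 : k * P + (n - k * P) ≡ c (n - k * P) p * P + (n - k * P) [MOD p] :=
          (hk.mul_right P).add_right _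
        exact (h9.dvd_iff dvd_rfl).2 h8
    · intro n hn n' hn' he
      rw [mem_coe, mem_filter, mem_Ioc] at hn hn'
      have he' : n - k * P = n' - k * P := he
      omega
  refine (sum_le_sum h1).trans (le_of_eq ?_)
  simp only [card_filter]
  push_cast
  rw [sum_comm]

theorem VV_pos (z y : ℕ) : 0 < VV (prI z y) := by
  refine prod_pos fun p hp => ?_
  rw [prI, mem_filter] at hp
  have : (2 : ℝ) ≤ p := by exact_mod_cast hp.2.two_le
  have h1 : 1 / (p : ℝ) ≤ 1 / 2 := one_div_le_one_div_of_le (by norm_num) this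
  linarith

open Classical in
theorem core (x z y h K0 : ℕ) (W η BJ : ℝ) (hη : 0 < η) (hη1 : η ≤ 1) (hzW : (z : ℝ) ≤ W) (hy : y = ⌊W⌋₊)
    (hK0 : K0 = x / primorial z) (hBJ : 0 < BJ)
    (hJ : (#((Icc 1 h).filter fun j : ℕ => ∀ p : ℕ, p.Prime → p ≤ z → ¬ p ∣ j) : ℝ) ≤ BJ)
    (h3 : ∀ (a : ℕ) (c : ℕ → ℕ), (#((Ico a (a + K0)).filter fun k => ∀ p ∈ prI z y, ¬ k ≡ c p [MOD p]) : ℝ) ≤
      (1 + η) * K0 * VV (prI z y))
    (hP1 : h ≤ primorial z) :
    ∃ K : Finset ℕ, (∀ u ∈ K, x ≤ u ∧ u ≤ 2 * x) ∧ (∀ u ∈ K, ∀ v ∈ K, u < v → u + h ≤ v) ∧ η / 2 * K0 ≤ #K ∧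
      ∀ u ∈ K, (#((Ioc u (u + h)).filter fun n : ℕ => ∀ p : ℕ, p.Prime → (p : ℝ) ≤ W → ¬ p ∣ n) : ℝ) ≤
        (1 + η) ^ 2 * (BJ * VV (prI z y)) := by
  set P := primorial z with hP
  have hPpos : 0 < P := primorial_pos z
  have hPd : ∀ p : ℕ, p.Prime → (p ∣ P ↔ p ≤ z) := fun p hp => hp.dvd_primorial_iff
  set a := x / P + 1 with ha
  obtain ⟨c, hc⟩ := count P z y h a K0 W hPd hzW hy
  set m : ℕ → ℝ := fun k =>
    (#((Ioc (k * P) (k * P + h)).filter fun n => ∀ p : ℕ, p.Prime → (p : ℝ) ≤ W → ¬ p ∣ n) : ℝ) with hm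
  have hVV := VV_pos z y
  have hsum : ∑ k ∈ Ico a (a + K0), m k ≤ (1 + η) * (BJ * VV (prI z y)) * #(Ico a (a + K0)) := by
    refine hc.trans ?_
    calc _ ≤ ∑ j ∈ (Icc 1 h).filter (fun j => ∀ p : ℕ, p.Prime → p ≤ z → ¬ p ∣ j),
          (1 + η) * K0 * VV (prI z y) := sum_le_sum fun j _ => h3 a (c j)
      _ = (#((Icc 1 h).filter fun j : ℕ => ∀ p : ℕ, p.Prime → p ≤ z → ¬ p ∣ j) : ℝ) *
          ((1 + η) * K0 * VV (prI z y)) := by rw [sum_const, nsmul_eq_mul]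
      _ ≤ BJ * ((1 + η) * K0 * VV (prI z y)) := mul_le_mul_of_nonneg_right hJ (by positivity)
      _ = (1 + η) * (BJ * VV (prI z y)) * #(Ico a (a + K0)) := by
          rw [Nat.card_Ico]
          have : a + K0 - a = K0 := by omega
          rw [this]
          ring
  have hav := avg (Ico a (a + K0)) m (fun k _ => by positivity) (BJ * VV (prI z y)) η (by positivity) hη hη1 hsum
  refine ⟨((Ico a (a + K0)).filter fun k => m k ≤ (1 + η) ^ 2 * (BJ * VV (prI z y))).image fun k => k * P,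
    ?_, ?_, ?_, ?_⟩
  · intro u hu
    obtain ⟨k, hk, rfl⟩ := mem_image.1 hu
    obtain ⟨hk, -⟩ := mem_filter.1 hk
    rw [mem_Ico] at hk
    constructor
    · have h1 : x < P * (x / P + 1) := Nat.lt_mul_div_succ x hPpos
      have h2 : P * (x / P + 1) ≤ k * P := by rw [mul_comm k P]; exact Nat.mul_le_mul_left P hk.1
      omega
    · have h1 : k ≤ 2 * (x / P) := by omega
      have h2 : k * P ≤ 2 * (x / P) * P := Nat.mul_le_mul_right P h1
      have h4 : x / P * P ≤ x := Nat.div_mul_le_self x P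
      nlinarith
  · intro u hu v hv huv
    obtain ⟨k, hk, rfl⟩ := mem_image.1 hu
    obtain ⟨l, hl, rfl⟩ := mem_image.1 hv
    have h1 : k < l := lt_of_mul_lt_mul_right huv (Nat.zero_le P)
    have h2 : (k + 1) * P ≤ l * P := Nat.mul_le_mul_right P h1
    have h4 : (k + 1) * P = k * P + P := by ring
    show k * P + h ≤ l * P
    omega
  · rw [card_image_of_injective]
    · rw [Nat.card_Ico] at hav
      have h1 : a + K0 - a = K0 := by omega
      rw [h1] at hav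
      exact hav
    · intro k l hkl
      exact Nat.eq_of_mul_eq_mul_right hPpos hkl
  · intro u hu
    obtain ⟨k, hk, rfl⟩ := mem_image.1 hu
    exact (mem_filter.1 hk).2

end Pool.Agent.L5helper55.LG
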