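import Pool.Agent.L5helper16.LG.Defs2
import Pool.Agent.L5helper55.LG.A5

/-!
# Project LG, job A7: the arithmetic part at all good scales
-/

set_option autoImplicit false

namespace Pool.Agent.L5helper55.LG

open Finset Filter Topology
open Pool.Agent.L5helper16.LG

theorem a7 (hA2 : St_A2) (hA3 : St_A3) (hA4 : St_A4) : St_A7 := by
  classical
  intro θ c hθ hc hcθ w hwm hw6 hw0
  set q := c / (2 * θ) with hq
  have hq0 : 0 < q := by positivity
  have hq1 : q < 1 := by rw [hq, div_lt_one (by positivity)]; exact hcθ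
  obtain ⟨η, hη, hη1, hηq⟩ := exists_eta hq1
  set δ := (1 - q) / 4 with hδ
  have hδ0 : 0 < δ := by rw [hδ]; linarith
  have hδ4 : δ ≤ 1 / 4 := by rw [hδ]; linarith
  have hδq : (1 + q) / 2 = 1 - 2 * δ := by rw [hδ]; ring
  refine ⟨δ, η, hδ0, by linarith, hη, ?_⟩
  set ρ := δ / 4 with hρ
  have hρ0 : 0 < ρ := by positivity
  have hρ1 : ρ ≤ 1 := by rw [hρ]; linarith
  obtain ⟨C₀, hC₀, D₃, h3⟩ := hA3 η hη
  obtain ⟨D₄, h4⟩ := hA4 η hη
  obtain ⟨T, hT2, hT⟩ := floor_log hη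
  -- the eventual facts
  have e1 := (z_tendsto hρ0).eventually_ge_atTop (max (max D₃ D₄) 1)
  have e2 := t4.eventually hw6
  have e3 := ev_log.eventually_ge_atTop (T + 1)
  have e4 := ev_small hw0 (ε := 1 / (4 * C₀)) (by positivity)
  have e5 := ev_small4 hw0 (ε := θ / 2) (by positivity)
  have e6 := hA2 c ρ η hc hρ0 hη
  have e7 := h_le hc hρ0
  have e8 := xh_le hc
  have e9 := K0_ge hδ0 (by linarith)
  have e10 := pow_ge hδ0 hη
  have e11 : ∀ᶠ x : ℕ in atTop, (T + D₄ + 1 : ℝ) ≤ (x : ℝ) ^ (θ / 2) :=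
    ((tendsto_rpow_atTop (by positivity)).comp tendsto_natCast_atTop_atTop).eventually_ge_atTop _
  have e12 : ∀ᶠ x : ℕ in atTop, (2 : ℝ) ≤ (x : ℝ) ^ ((1 : ℝ) / 4) :=
    ((tendsto_rpow_atTop (by norm_num)).comp tendsto_natCast_atTop_atTop).eventually_ge_atTop _
  have e13 := ev_log.eventually_ge_atTop (D₄ + 2 : ℝ)
  have ev := (((((e1.and e2).and (e3.and e4)).and ((e5.and e6).and (e7.and e8))).and
    ((e9.and e10).and (e11.and e12))).and (e13.and hw6)).and (eventually_ge_atTop 4)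
  refine ev.mono ?_
  rintro x ⟨⟨⟨⟨⟨⟨f2, f3⟩, ⟨f4, f5⟩⟩, ⟨⟨f6, f7⟩, ⟨f8, f9⟩⟩⟩, ⟨⟨f10, f11⟩, ⟨f12, f13⟩⟩⟩, ⟨f14, f15⟩⟩, f16⟩ f1
  have hx4 : (4 : ℝ) ≤ x := by exact_mod_cast f16
  have hx0 : (0 : ℝ) < x := by linarith
  set L := Real.log (x : ℝ) with hLdef
  have hL1 : 1 ≤ L := by linarith
  have hLT : T + 1 ≤ L := f4
  set z := ⌊ρ * L⌋₊ with hz
  have hz1 : 1 ≤ z := (le_max_right _ _).trans f2
  have hzD3 : D₃ ≤ z := (le_max_left _ _).trans ((le_max_left _ _).trans f2)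
  have hzD4 : D₄ ≤ z := (le_max_right _ _).trans ((le_max_left _ _).trans f2)
  have hzL : (z : ℝ) ≤ L := (Nat.floor_le (by positivity)).trans (by nlinarith)
  have hLw : L ≤ w x := by
    refine le_trans ?_ f15
    exact le_self_pow₀ hL1 (by norm_num)
  have hzW : (z : ℝ) ≤ w x := hzL.trans hLw
  set y := ⌊w x⌋₊ with hy
  have hzy : z ≤ y := Nat.le_floor hzW
  have hWpos : 0 < w x := by linarith
  have hW4 : w x ≤ w (4 * x) := hwm (by omega)
  have hWT : T ≤ w x := by linarith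
  set h := ⌊c * Real.log (4 * x) ^ 2⌋₊ with hh
  set K0 := x / primorial z with hK0
  -- the sieve bound
  have hx78 : (x : ℝ) ^ ((3 : ℝ) / 4) ≤ (x : ℝ) ^ (1 - δ / 2) :=
    Real.rpow_le_rpow_of_exponent_le (by linarith) (by linarith)
  have hx14 : (x : ℝ) ^ ((1 : ℝ) / 4) ≤ K0 := by
    have g1 : (x : ℝ) ^ ((3 : ℝ) / 4) = (x : ℝ) ^ ((1 : ℝ) / 4) * ((x : ℝ) ^ ((1 : ℝ) / 4) * (x : ℝ) ^ ((1 : ℝ) / 4)) := by
      rw [← Real.rpow_add hx0, ← Real.rpow_add hx0]; norm_num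
    have g2 : 0 < (x : ℝ) ^ ((1 : ℝ) / 4) := by positivity
    have g3 : 2 * (x : ℝ) ^ ((1 : ℝ) / 4) ≤ (x : ℝ) ^ ((3 : ℝ) / 4) := by
      rw [g1]
      nlinarith
    have g4 : (x : ℝ) ^ (1 - δ / 2) ≤ 2 * (K0 : ℝ) := f10
    linarith
  have hyC : (y : ℝ) ^ C₀ ≤ K0 := by
    refine le_trans ?_ hx14
    have g1 : (y : ℝ) ≤ w x := Nat.floor_le hWpos.le
    calc (y : ℝ) ^ C₀ ≤ (w x) ^ C₀ := Real.rpow_le_rpow (by positivity) g1 hC₀.le
      _ = Real.exp (Real.log (w x) * C₀) := Real.rpow_def_of_pos hWpos _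
      _ ≤ Real.exp (L * (1 / 4)) := by
          apply Real.exp_le_exp.2
          calc Real.log (w x) * C₀ ≤ 1 / (4 * C₀) * L * C₀ := mul_le_mul_of_nonneg_right f5 hC₀.le
            _ = L * (1 / 4) := by field_simp
      _ = (x : ℝ) ^ ((1 : ℝ) / 4) := (Real.rpow_def_of_pos hx0 _).symm
  have hlL : 0 < Real.log L := Real.log_pos (by linarith)
  set BJ := (1 + η) * (c * L ^ 2 / (2 * Real.log L)) with hBJ
  have hBJ0 : 0 < BJ := by positivity
  obtain ⟨K, k1, k2, k3, k4⟩ := core x z y h K0 (w x) η BJ hη hη1 hzW hy hK0 hBJ0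
    (by convert f7) (fun a c' => by convert h3 z y K0 a hzD3 hzy hyC c') f8
  refine ⟨K, ?_, ?_, ?_, ?_⟩
  · intro u hu
    have := k1 u hu
    refine ⟨this.1, ?_⟩
    have g : 2 * x + h ≤ 4 * x := f9
    omega
  · exact k2
  · refine le_trans ?_ k3
    have g4 : (x : ℝ) ^ (1 - δ / 2) ≤ 2 * (K0 : ℝ) := f10
    refine f11.trans ?_
    nlinarith
  · intro u hu
    have g1 := k4 u hu
    have hwT4 : T ≤ w (4 * x) := hWT.trans hW4
    have hW4pos : 0 < w (4 * x) := by linarith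
    -- `w (4 x) ≤ x ^ (θ/2)`
    have g2 : w (4 * x) ≤ (x : ℝ) ^ (θ / 2) := by
      rw [Real.rpow_def_of_pos hx0, ← Real.log_le_iff_le_exp hW4pos]
      calc Real.log (w (4 * x)) ≤ θ / 2 * L := f6
        _ = Real.log x * (θ / 2) := by rw [hLdef]; ring
    have g3 : (x : ℝ) ^ (θ / 2) ≤ (x : ℝ) ^ θ := Real.rpow_le_rpow_of_exponent_le (by linarith) (by linarith)
    have g4 : ⌊w (4 * x)⌋₊ ≤ ⌊(x : ℝ) ^ θ⌋₊ := Nat.floor_le_floor (g2.trans g3)
    have g5 : D₄ ≤ ⌊w (4 * x)⌋₊ := by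
      apply Nat.le_floor
      have : (D₄ : ℝ) + 2 ≤ L := f14
      linarith
    have hV2 := h4 ⌊w (4 * x)⌋₊ ⌊(x : ℝ) ^ θ⌋₊ g5 g4
    have hV1 := h4 z y hzD4 hzy
    have g6 : T ≤ (x : ℝ) ^ θ := by
      have : (0 : ℝ) ≤ D₄ := by positivity
      linarith
    have hlt1 := hT _ g6
    have hly1 := hT _ hWT
    rw [Real.log_rpow hx0] at hlt1
    have hly : 0 < Real.log y := by
      have g7 : 0 < Real.log (w x) := Real.log_pos (by linarith)
      have g8 : 0 < (1 + η) * Real.log y := g7.trans_le hly1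
      exact (pos_iff_pos_of_mul_pos g8).1 (by positivity)
    have hlt : 0 < Real.log ⌊(x : ℝ) ^ θ⌋₊ := by
      have g8 : 0 < (1 + η) * Real.log ⌊(x : ℝ) ^ θ⌋₊ := lt_of_lt_of_le (by positivity) hlt1
      exact (pos_iff_pos_of_mul_pos g8).1 (by positivity)
    have hlz : Real.log z ≤ Real.log L := Real.log_le_log (by exact_mod_cast hz1) hzL
    have hw4l : Real.log ⌊w (4 * x)⌋₊ ≤ (1 + η) * Real.log (w x) := by
      refine le_trans ?_ f1
      apply Real.log_le_log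
      · have g9 : 2 ≤ ⌊w (4 * x)⌋₊ := Nat.le_floor (by push_cast; linarith)
        have : (2 : ℝ) ≤ ⌊w (4 * x)⌋₊ := by exact_mod_cast g9
        linarith
      · exact Nat.floor_le hW4pos.le
    have g10 := final hη hc hθ (by linarith : (0 : ℝ) < L) hlL hly hlt (VV_pos _ _).le hBJ hV1 hV2 hlz hw4l hly1 hlt1 g1
    have g11 : (1 + η) ^ 8 * (c / (2 * θ)) * L ≤ (1 - 2 * δ) * L := by
      rw [← hδq]
      exact mul_le_mul_of_nonneg_right hηq (by linarith)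
    convert g10.trans g11 using 3

end Pool.Agent.L5helper55.LG
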